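import Pool.Agent.Q202.RC.Core
import Mathlib.Data.Nat.Log
import Mathlib.Data.Fintype.EquivFin
import Mathlib.SetTheory.Cardinal.Finite

/-!
# Data structures for the disjointness of the sets of a family
-/

set_option autoImplicit false

open Finset

namespace Pool.Agent.Q202.RC

variable {K : Type} [Field K] {k u M : ℕ}

/-- A data structure with `M` memory bits for families of `k` subsets of `{0, …, u - 1}`. The query
`i, j` evaluates polynomials over `K` in the memory bits. -/
structure SetDS (K : Type) [Field K] (k u M : ℕ) where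
  mem : (Fin k → Finset (Fin u)) → Fin M → Bool
  V : Type
  query : Fin k → Fin k → V → MvPolynomial (Fin M) K

/-- The structure says that the sets `i` and `j` of the family `F` are disjoint: one of the
polynomials of the query is not zero at the memory. -/
def SetDS.Says (D : SetDS K k u M) (F : Fin k → Finset (Fin u)) (i j : Fin k) : Prop :=
  ∃ v, MvPolynomial.eval (fun l => if D.mem F l = true then (1 : K) else 0) (D.query i j v) ≠ 0

/-- The family `F` with the set `i` replaced by `x` and the set `j` replaced by `y`. -/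
def put (F : Fin k → Finset (Fin u)) (i j : Fin k) (x y : Finset (Fin u)) :
    Fin k → Finset (Fin u) :=
  Function.update (Function.update F i x) j y

/-- The memory bit `l` entangles the sets `i` and `j` at `F`: as a function of these two sets, the
others being as in `F`, it has rank larger than `r` over `K`. -/
def SetDS.Entangles (D : SetDS K k u M) (r : ℕ) (F : Fin k → Finset (Fin u)) (i j : Fin k)
    (l : Fin M) : Prop :=
  ¬ RankLe K r (fun x y => D.mem (put F i j x y) l)

/-- The random structure `D ω`, `ω` in `Ω`, uses polynomials of degree at most `T`, never says that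
two sets which intersect are disjoint, and says that two disjoint sets are disjoint with probability
at least `2 ^ (- μ)`. -/
def SolvesSets {Ω : Type} (D : Ω → SetDS K k u M) (T μ : ℕ) : Prop :=
  (∀ ω i j v, i < j → ((D ω).query i j v).totalDegree ≤ T) ∧
  (∀ ω F i j, i < j → (F i ∩ F j).Nonempty → ¬ (D ω).Says F i j) ∧
  (∀ F i j, i < j → Disjoint (F i) (F j) → Nat.card Ω ≤ 2 ^ μ * Nat.card {ω // (D ω).Says F i j})

theorem put_left (F : Fin k → Finset (Fin u)) {i j : Fin k} (h : i < j) (x y : Finset (Fin u)) :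
    put F i j x y i = x := by
  unfold put
  rw [Function.update_of_ne h.ne, Function.update_self]

theorem put_right (F : Fin k → Finset (Fin u)) (i j : Fin k) (x y : Finset (Fin u)) :
    put F i j x y j = y := by
  unfold put
  rw [Function.update_self]

theorem le_pow_clog (T M r μ : ℕ) :
    2 ^ (μ + 1) * ((M + 1) * r) ^ T ≤ 2 ^ (T * Nat.clog 2 ((M + 1) * r) + μ + 1) := by
  calc 2 ^ (μ + 1) * ((M + 1) * r) ^ T ≤
      2 ^ (μ + 1) * (2 ^ Nat.clog 2 ((M + 1) * r)) ^ T :=
        Nat.mul_le_mul_left _ (Nat.pow_le_pow_left (Nat.le_pow_clog (by norm_num) _) _)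
    _ = _ := by
      rw [← pow_mul, ← pow_add]
      congr 1
      ring

open Classical in
theorem pair_bound {T μ r : ℕ} (hr : 1 ≤ r)
    (hu : 2 ^ (μ + 1) * ((M + 1) * r) ^ T ≤ 2 ^ u) {Ω : Type} [Fintype Ω]
    {D : Ω → SetDS K k u M} (hD : SolvesSets D T μ) (F : Fin k → Finset (Fin u)) {i j : Fin k}
    (hij : i < j) :
    Fintype.card Ω ≤ 2 ^ (μ + 1) *
      (univ.filter (fun ω => ∃ l, (D ω).Entangles r F i j l)).card := by
  obtain ⟨h1, h2, h3⟩ := hD
  have key := core hr hu (fun ω x y => (D ω).mem (put F i j x y)) (fun ω => (D ω).V)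
    (fun ω => (D ω).query i j) (fun ω v => h1 ω i j v hij)
    (fun ω x y hxy v => by
      by_contra hcon
      refine h2 ω (put F i j x y) i j hij ?_ ⟨v, hcon⟩
      rw [put_left F hij, put_right]
      exact hxy)
    (fun x y hxy => by
      have h4 := h3 (put F i j x y) i j hij (by
        rw [put_left F hij, put_right]
        exact hxy)
      rw [Nat.card_eq_fintype_card, Nat.card_eq_fintype_card, Fintype.card_subtype] at h4
      refine h4.trans (Nat.mul_le_mul_left _ (card_le_card fun ω hω => ?_))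
      rw [mem_filter] at hω ⊢
      exact hω)
  refine key.trans (Nat.mul_le_mul_left _ (card_le_card fun ω hω => ?_))
  rw [mem_filter] at hω ⊢
  exact hω

theorem card_lt (k : ℕ) :
    2 * (univ.filter (fun q : Fin k × Fin k => q.1 < q.2)).card + k = k * k := by
  have h1 : (univ : Finset (Fin k × Fin k)).card = k * k := by
    rw [card_univ, Fintype.card_prod, Fintype.card_fin]
  have h2 := card_filter_add_card_filter_not (s := (univ : Finset (Fin k × Fin k)))
    (fun q => q.1 < q.2)
  have h3 : (univ.filter (fun q : Fin k × Fin k => ¬ q.1 < q.2)).card =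
      (univ.filter (fun q : Fin k × Fin k => q.2 < q.1)).card +
        (univ.filter (fun q : Fin k × Fin k => q.1 = q.2)).card := by
    rw [← card_union_of_disjoint]
    · congr 1
      ext q
      rw [mem_union, mem_filter, mem_filter, mem_filter]
      constructor
      · rintro ⟨-, h⟩
        rcases lt_or_eq_of_le (not_lt.1 h) with h' | h'
        · exact Or.inl ⟨mem_univ _, h'⟩
        · exact Or.inr ⟨mem_univ _, h'.symm⟩
      · rintro (⟨-, h⟩ | ⟨-, h⟩)
        · exact ⟨mem_univ _, not_lt.2 h.le⟩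
        · exact ⟨mem_univ _, not_lt.2 h.ge⟩
    · rw [disjoint_left]
      intro q hq hq'
      rw [mem_filter] at hq hq'
      exact hq.2.ne hq'.2.symm
  have h4 : (univ.filter (fun q : Fin k × Fin k => q.2 < q.1)).card =
      (univ.filter (fun q : Fin k × Fin k => q.1 < q.2)).card := by
    refine card_bij (fun q _ => (q.2, q.1)) (fun q hq => ?_) (fun q _ q' _ h => ?_)
      (fun q hq => ⟨(q.2, q.1), ?_, rfl⟩)
    · rw [mem_filter] at hq ⊢
      exact ⟨mem_univ _, hq.2⟩
    · have e1 := congrArg Prod.fst h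
      have e2 := congrArg Prod.snd h
      exact Prod.ext e2 e1
    · rw [mem_filter] at hq ⊢
      exact ⟨mem_univ _, hq.2⟩
  have h5 : (univ.filter (fun q : Fin k × Fin k => q.1 = q.2)).card = k := by
    have : (univ.filter (fun q : Fin k × Fin k => q.1 = q.2)).card =
        (univ : Finset (Fin k)).card := by
      refine card_bij (fun q _ => q.1) (fun q _ => mem_univ _) (fun q hq q' hq' h => ?_)
        (fun i _ => ⟨(i, i), mem_filter.2 ⟨mem_univ _, rfl⟩, rfl⟩)
      rw [mem_filter] at hq hq'
      have e1 : q.1 = q'.1 := h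
      exact Prod.ext e1 (by rw [← hq.2, ← hq'.2, e1])
    rw [this, card_univ, Fintype.card_fin]
  omega

theorem sets_bound (K : Type) [Field K] (N T M r μ L : ℕ) (hr : 1 ≤ r)
    (hL : L = T * Nat.clog 2 ((M + 1) * r) + μ + 1) (hN : 2 * L ≤ N) :
    ∃ k u : ℕ, k * u ≤ N ∧ ∀ (Ω : Type) [Fintype Ω] (D : Ω → SetDS K k u M), SolvesSets D T μ →
      ∀ F : Fin k → Finset (Fin u),
        N ^ 2 * Nat.card Ω ≤ 18 * 2 ^ μ * L ^ 2 *
          Nat.card {q : Ω × (Fin k × Fin k) × Fin M //
            q.2.1.1 < q.2.1.2 ∧ (D q.1).Entangles r F q.2.1.1 q.2.1.2 q.2.2} := by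
  classical
  have hL1 : 1 ≤ L := by omega
  obtain ⟨k, hk⟩ : ∃ k, k = N / L := ⟨_, rfl⟩
  refine ⟨k, L, by rw [hk]; exact Nat.div_mul_le_self N L, fun Ω _ D hD F => ?_⟩
  have hk2 : 2 ≤ k := by
    rw [hk, Nat.le_div_iff_mul_le (by omega)]
    exact hN
  obtain ⟨P, hP⟩ : ∃ P : Finset (Fin k × Fin k), P = univ.filter (fun q => q.1 < q.2) := ⟨_, rfl⟩
  have hPc : 2 * P.card + k = k * k := by
    rw [hP]
    exact card_lt k
  have hpairs : P.card * Fintype.card Ω ≤ 2 ^ (μ + 1) *
      (univ.filter (fun q : Ω × (Fin k × Fin k) × Fin M =>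
        q.2.1.1 < q.2.1.2 ∧ (D q.1).Entangles r F q.2.1.1 q.2.1.2 q.2.2)).card := by
    have e1 : ∑ q ∈ P, (univ.filter (fun ω => ∃ l, (D ω).Entangles r F q.1 q.2 l)).card ≤
        (univ.filter (fun q : Ω × (Fin k × Fin k) × Fin M =>
          q.2.1.1 < q.2.1.2 ∧ (D q.1).Entangles r F q.2.1.1 q.2.1.2 q.2.2)).card := by
      rw [← card_sigma]
      have hch : ∀ z : (q : Fin k × Fin k) × Ω, ∃ l : Option (Fin M),
          (∃ l', (D z.2).Entangles r F z.1.1 z.1.2 l') →
            ∃ l', l = some l' ∧ (D z.2).Entangles r F z.1.1 z.1.2 l' := by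
        intro z
        by_cases hz : ∃ l', (D z.2).Entangles r F z.1.1 z.1.2 l'
        · obtain ⟨l', hl'⟩ := hz
          exact ⟨some l', fun _ => ⟨l', rfl, hl'⟩⟩
        · exact ⟨none, fun h => absurd h hz⟩
      choose c hc using hch
      rw [← card_image_of_injective (univ.filter (fun q : Ω × (Fin k × Fin k) × Fin M =>
          q.2.1.1 < q.2.1.2 ∧ (D q.1).Entangles r F q.2.1.1 q.2.1.2 q.2.2))
        (f := fun q => (q.1, q.2.1, some q.2.2)) (fun q q' h => by
          have a1 : q.1 = q'.1 := (Prod.mk.inj h).1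
          have a2 := (Prod.mk.inj h).2
          have a3 : q.2.1 = q'.2.1 := (Prod.mk.inj a2).1
          exact Prod.ext a1 (Prod.ext a3 (Option.some.inj (Prod.mk.inj a2).2)))]
      refine card_le_card_of_injOn (fun z => (z.2, z.1, c z)) (fun z hz => ?_)
        (fun z _ z' _ h => ?_)
      · rw [mem_coe, mem_sigma, mem_filter, hP, mem_filter] at hz
        obtain ⟨l', h1, h2⟩ := hc z hz.2.2
        rw [mem_coe, mem_image]
        refine ⟨(z.2, z.1, l'), mem_filter.2 ⟨mem_univ _, hz.1.2, h2⟩, ?_⟩
        show (z.2, z.1, some l') = (z.2, z.1, c z)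
        rw [h1]
      · have a1 : z.2 = z'.2 := congrArg Prod.fst h
        have a2 : (z.1, c z) = (z'.1, c z') := congrArg Prod.snd h
        have a3 : z.1 = z'.1 := congrArg Prod.fst a2
        exact Sigma.ext a3 (heq_of_eq a1)
    calc P.card * Fintype.card Ω = ∑ _q ∈ P, Fintype.card Ω := by
          rw [sum_const, smul_eq_mul]
      _ ≤ ∑ q ∈ P, 2 ^ (μ + 1) *
          (univ.filter (fun ω => ∃ l, (D ω).Entangles r F q.1 q.2 l)).card := by
          refine sum_le_sum fun q hq => ?_
          rw [hP, mem_filter] at hq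
          exact pair_bound hr (by rw [hL]; exact le_pow_clog T M r μ) hD F hq.2
      _ ≤ _ := by
          rw [← mul_sum]
          exact Nat.mul_le_mul_left _ e1
  have hN2 : N ^ 2 ≤ 9 * L ^ 2 * P.card := by
    have e1 : N < L * (k + 1) := by
      rw [hk]
      exact Nat.lt_mul_div_succ N (by omega)
    have e2 : 2 * N ≤ 3 * (k * L) := by nlinarith
    have e3 : k * k ≤ 4 * P.card := by nlinarith
    have e4 : (2 * N) ^ 2 ≤ (3 * (k * L)) ^ 2 := Nat.pow_le_pow_left e2 2
    have e5 : (3 * (k * L)) ^ 2 = 9 * L ^ 2 * (k * k) := by ring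
    have e6 : 9 * L ^ 2 * (k * k) ≤ 9 * L ^ 2 * (4 * P.card) := Nat.mul_le_mul_left _ e3
    have e7 : (2 * N) ^ 2 = 4 * N ^ 2 := by ring
    have e8 : 9 * L ^ 2 * (4 * P.card) = 4 * (9 * L ^ 2 * P.card) := by ring
    omega
  rw [Nat.card_eq_fintype_card, Nat.card_eq_fintype_card, Fintype.card_subtype]
  calc N ^ 2 * Fintype.card Ω ≤ 9 * L ^ 2 * P.card * Fintype.card Ω :=
        Nat.mul_le_mul_right _ hN2
    _ = 9 * L ^ 2 * (P.card * Fintype.card Ω) := by ring
    _ ≤ 9 * L ^ 2 * _ := Nat.mul_le_mul_left _ hpairs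
    _ = _ := by ring

end Pool.Agent.Q202.RC
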