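import Pool.Agent.Q202.RC.Core
import Mathlib.Data.Nat.Log
import Mathlib.Data.Fintype.EquivFin
import Mathlib.SetTheory.Cardinal.Finite

/-!
# Data structures for 3SUM-Indexing
-/

set_option autoImplicit false

open Finset

namespace Pool.Agent.Q202.RC

variable {K : Type} [Field K] {k u M n : ℕ}

/-- A data structure with `M` memory bits for pairs of finite sets of natural numbers. The query `z`
evaluates polynomials over `K` in the memory bits. -/
structure SumDS (K : Type) [Field K] (M : ℕ) where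
  mem : Finset ℕ → Finset ℕ → Fin M → Bool
  V : Type
  query : ℕ → V → MvPolynomial (Fin M) K

/-- The structure says that `z` is not a sum: one of the polynomials of the query is not zero at the
memory. -/
def SumDS.Says (D : SumDS K M) (A B : Finset ℕ) (z : ℕ) : Prop :=
  ∃ v, MvPolynomial.eval (fun l => if D.mem A B l = true then (1 : K) else 0) (D.query z v) ≠ 0

/-- `z` is the sum of an element of `A` and an element of `B`. -/
def IsSum (A B : Finset ℕ) (z : ℕ) : Prop := ∃ a ∈ A, ∃ b ∈ B, a + b = z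

/-- The random structure `D ω`, `ω` in `Ω`, solves 3SUM-Indexing for sets of at most `n` numbers
from `0, …, n ^ 2`: it uses polynomials of degree at most `T`, never says that a sum is not a sum,
and says that a number which is not a sum is not a sum with probability at least `2 ^ (- μ)`. -/
def SolvesSums {Ω : Type} (D : Ω → SumDS K M) (n T μ : ℕ) : Prop :=
  (∀ ω z v, ((D ω).query z v).totalDegree ≤ T) ∧
  ∀ A B : Finset ℕ, A.card ≤ n → B.card ≤ n → (∀ a ∈ A, a ≤ n ^ 2) → (∀ b ∈ B, b ≤ n ^ 2) →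
    ∀ z, (IsSum A B z → ∀ ω, ¬ (D ω).Says A B z) ∧
      (¬ IsSum A B z → Nat.card Ω ≤ 2 ^ μ * Nat.card {ω // (D ω).Says A B z})

/-- The first array: the number `2 u i + e` is in it if the set `X i` contains `e`. -/
def arr₁ (X : Fin k → Finset (Fin u)) : Finset ℕ :=
  univ.biUnion fun i => (X i).image fun e : Fin u => 2 * u * (i : ℕ) + (e : ℕ)

/-- The second array: the number `2 u k j + (u - 1 - e)` is in it if the set `Y j` contains `e`. -/
def arr₂ (Y : Fin k → Finset (Fin u)) : Finset ℕ :=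
  univ.biUnion fun j => (Y j).image fun e : Fin u => 2 * u * k * (j : ℕ) + (u - 1 - (e : ℕ))

/-- The memory bit `l` entangles the block `i` of the first array and the block `j` of the second
array at `X`, `Y`: as a function of the contents of these two blocks, the other blocks being as in
`X` and `Y`, it has rank larger than `r` over `K`. -/
def SumDS.Entangles (D : SumDS K M) (r : ℕ) (X Y : Fin k → Finset (Fin u)) (i j : Fin k)
    (l : Fin M) : Prop :=
  ¬ RankLe K r (fun x y => D.mem (arr₁ (Function.update X i x)) (arr₂ (Function.update Y j y)) l)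

theorem mem_arr₁ (X : Fin k → Finset (Fin u)) (a : ℕ) :
    a ∈ arr₁ X ↔ ∃ i, ∃ e ∈ X i, 2 * u * (i : ℕ) + (e : ℕ) = a := by
  unfold arr₁
  rw [mem_biUnion]
  constructor
  · rintro ⟨i, -, h⟩
    obtain ⟨e, he, h⟩ := mem_image.1 h
    exact ⟨i, e, he, h⟩
  · rintro ⟨i, e, he, h⟩
    exact ⟨i, mem_univ _, mem_image.2 ⟨e, he, h⟩⟩

theorem mem_arr₂ (Y : Fin k → Finset (Fin u)) (b : ℕ) :
    b ∈ arr₂ Y ↔ ∃ j, ∃ e ∈ Y j, 2 * u * k * (j : ℕ) + (u - 1 - (e : ℕ)) = b := by
  unfold arr₂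
  rw [mem_biUnion]
  constructor
  · rintro ⟨i, -, h⟩
    obtain ⟨e, he, h⟩ := mem_image.1 h
    exact ⟨i, e, he, h⟩
  · rintro ⟨i, e, he, h⟩
    exact ⟨i, mem_univ _, mem_image.2 ⟨e, he, h⟩⟩

theorem card_arr₁ (X : Fin k → Finset (Fin u)) : (arr₁ X).card ≤ k * u := by
  unfold arr₁
  refine card_biUnion_le.trans ?_
  calc ∑ i, ((X i).image fun e : Fin u => 2 * u * (i : ℕ) + (e : ℕ)).card ≤ ∑ _i : Fin k, u := by
        refine sum_le_sum fun i _ => card_image_le.trans ((card_le_univ _).trans ?_)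
        rw [Fintype.card_fin]
    _ = _ := by rw [sum_const, card_univ, Fintype.card_fin, smul_eq_mul]

theorem card_arr₂ (Y : Fin k → Finset (Fin u)) : (arr₂ Y).card ≤ k * u := by
  unfold arr₂
  refine card_biUnion_le.trans ?_
  calc ∑ j, ((Y j).image fun e : Fin u => 2 * u * k * (j : ℕ) + (u - 1 - (e : ℕ))).card ≤
      ∑ _j : Fin k, u := by
        refine sum_le_sum fun i _ => card_image_le.trans ((card_le_univ _).trans ?_)
        rw [Fintype.card_fin]
    _ = _ := by rw [sum_const, card_univ, Fintype.card_fin, smul_eq_mul]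

/-- The blocks `i` and `j` produce the sum `2 u (i + k j) + u - 1` iff they intersect. -/
theorem isSum_iff (X Y : Fin k → Finset (Fin u)) (i j : Fin k) (hu : 1 ≤ u) :
    IsSum (arr₁ X) (arr₂ Y) (2 * u * ((i : ℕ) + k * j) + (u - 1)) ↔ (X i ∩ Y j).Nonempty := by
  constructor
  · rintro ⟨a, ha, b, hb, hab⟩
    obtain ⟨i', e, he, rfl⟩ := (mem_arr₁ _ _).1 ha
    obtain ⟨j', e', he', rfl⟩ := (mem_arr₂ _ _).1 hb
    have h1 : (e : ℕ) < u := e.2
    have h2 : (e' : ℕ) < u := e'.2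
    have h3 : 2 * u * ((i' : ℕ) + k * j') + ((e : ℕ) + (u - 1 - (e' : ℕ))) =
        2 * u * ((i : ℕ) + k * j) + (u - 1) := by
      rw [← hab]
      ring
    have h4 : (e : ℕ) + (u - 1 - (e' : ℕ)) < 2 * u := by omega
    have h5 : u - 1 < 2 * u := by omega
    have h6 : (i' : ℕ) + k * j' = i + k * j := by
      have e1 : (2 * u * ((i' : ℕ) + k * j') + ((e : ℕ) + (u - 1 - (e' : ℕ)))) / (2 * u) =
          (2 * u * ((i : ℕ) + k * j) + (u - 1)) / (2 * u) := by rw [h3]
      rwa [Nat.mul_add_div (by omega), Nat.mul_add_div (by omega), Nat.div_eq_of_lt h4,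
        Nat.div_eq_of_lt h5, add_zero, add_zero] at e1
    have h7 : (e : ℕ) + (u - 1 - (e' : ℕ)) = u - 1 := by
      rw [h6] at h3
      omega
    have h8 : e = e' := Fin.ext (by omega)
    have hk : 0 < k := i.pos
    have h9 : (i' : ℕ) = i := by
      have e1 : ((i' : ℕ) + k * j') % k = ((i : ℕ) + k * j) % k := by rw [h6]
      rwa [Nat.add_mul_mod_self_left, Nat.add_mul_mod_self_left, Nat.mod_eq_of_lt i'.2,
        Nat.mod_eq_of_lt i.2] at e1
    have h10 : (j' : ℕ) = j := by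
      rw [h9] at h6
      have e1 : k * (j' : ℕ) = k * j := by omega
      exact Nat.eq_of_mul_eq_mul_left hk e1
    have h11 : i' = i := Fin.ext h9
    have h12 : j' = j := Fin.ext h10
    rw [h11] at he
    rw [h12, ← h8] at he'
    exact ⟨e, mem_inter.2 ⟨he, he'⟩⟩
  · rintro ⟨e, he⟩
    rw [mem_inter] at he
    have h1 : (e : ℕ) < u := e.2
    refine ⟨_, (mem_arr₁ _ _).2 ⟨i, e, he.1, rfl⟩, _, (mem_arr₂ _ _).2 ⟨j, e, he.2, rfl⟩, ?_⟩
    have h2 : (e : ℕ) + (u - 1 - (e : ℕ)) = u - 1 := by omega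
    calc 2 * u * (i : ℕ) + (e : ℕ) + (2 * u * k * (j : ℕ) + (u - 1 - (e : ℕ))) =
        2 * u * ((i : ℕ) + k * j) + ((e : ℕ) + (u - 1 - (e : ℕ))) := by ring
      _ = _ := by rw [h2]

theorem le_sq₁ (X : Fin k → Finset (Fin u)) (hu : 2 ≤ u) (hn : k * u ≤ n) :
    ∀ a ∈ arr₁ X, a ≤ n ^ 2 := by
  intro a ha
  obtain ⟨i, e, he, rfl⟩ := (mem_arr₁ _ _).1 ha
  have h1 : (e : ℕ) < u := e.2
  have h2 : (i : ℕ) + 1 ≤ k := i.2
  have h3 : (k * u) ^ 2 ≤ n ^ 2 := Nat.pow_le_pow_left hn 2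
  have h4 : 2 * u * ((i : ℕ) + 1) ≤ 2 * u * k := Nat.mul_le_mul_left _ h2
  have h5 : 2 * u * k ≤ (k * u) ^ 2 := by
    have h6 : 1 ≤ k := by omega
    calc 2 * u * k ≤ u * u * (k * k) := by
          refine Nat.mul_le_mul (Nat.mul_le_mul_right _ hu) ?_
          exact Nat.le_mul_of_pos_left _ h6
      _ = _ := by ring
  have h7 : 2 * u * ((i : ℕ) + 1) = 2 * u * i + 2 * u := by ring
  omega

theorem le_sq₂ (Y : Fin k → Finset (Fin u)) (hu : 2 ≤ u) (hn : k * u ≤ n) :
    ∀ b ∈ arr₂ Y, b ≤ n ^ 2 := by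
  intro b hb
  obtain ⟨j, e, he, rfl⟩ := (mem_arr₂ _ _).1 hb
  have h1 : (e : ℕ) < u := e.2
  have h2 : (j : ℕ) + 1 ≤ k := j.2
  have h3 : (k * u) ^ 2 ≤ n ^ 2 := Nat.pow_le_pow_left hn 2
  have h4 : 2 * u * k * ((j : ℕ) + 1) ≤ 2 * u * k * k := Nat.mul_le_mul_left _ h2
  have h5 : 2 * u * k * k ≤ (k * u) ^ 2 := by
    calc 2 * u * k * k ≤ u * u * k * k :=
          Nat.mul_le_mul_right _ (Nat.mul_le_mul_right _ (Nat.mul_le_mul_right _ hu))
      _ = _ := by ring
  have h6 : u ≤ 2 * u * k := by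
    have h6 : 1 ≤ k := by omega
    nlinarith
  have h7 : 2 * u * k * ((j : ℕ) + 1) = 2 * u * k * j + 2 * u * k := by ring
  omega

theorem le_pow_clog' (T M r μ : ℕ) :
    2 ^ (μ + 1) * ((M + 1) * r) ^ T ≤ 2 ^ (T * Nat.clog 2 ((M + 1) * r) + μ + 2) := by
  calc 2 ^ (μ + 1) * ((M + 1) * r) ^ T ≤
      2 ^ (μ + 2) * (2 ^ Nat.clog 2 ((M + 1) * r)) ^ T :=
        Nat.mul_le_mul (Nat.pow_le_pow_right (by norm_num) (by omega))
          (Nat.pow_le_pow_left (Nat.le_pow_clog (by norm_num) _) _)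
    _ = _ := by
      rw [← pow_mul, ← pow_add]
      congr 1
      ring

open Classical in
theorem sums_pair {T μ r : ℕ} (hr : 1 ≤ r) (hu2 : 2 ≤ u) (hn : k * u ≤ n)
    (hu : 2 ^ (μ + 1) * ((M + 1) * r) ^ T ≤ 2 ^ u) {Ω : Type} [Fintype Ω]
    {D : Ω → SumDS K M} (hD : SolvesSums D n T μ) (X Y : Fin k → Finset (Fin u)) (i j : Fin k) :
    Fintype.card Ω ≤ 2 ^ (μ + 1) *
      (univ.filter (fun ω => ∃ l, (D ω).Entangles r X Y i j l)).card := by
  obtain ⟨h1, h2⟩ := hD
  have h3 : ∀ x y : Finset (Fin u), IsSum (arr₁ (Function.update X i x))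
      (arr₂ (Function.update Y j y)) (2 * u * ((i : ℕ) + k * j) + (u - 1)) ↔ (x ∩ y).Nonempty := by
    intro x y
    rw [isSum_iff _ _ i j (by omega), Function.update_self, Function.update_self]
  have h4 := fun x y : Finset (Fin u) => h2 (arr₁ (Function.update X i x))
    (arr₂ (Function.update Y j y)) ((card_arr₁ _).trans hn) ((card_arr₂ _).trans hn)
    (le_sq₁ _ hu2 hn) (le_sq₂ _ hu2 hn) (2 * u * ((i : ℕ) + k * j) + (u - 1))
  have key := core hr hu (fun ω x y => (D ω).mem (arr₁ (Function.update X i x))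
      (arr₂ (Function.update Y j y))) (fun ω => (D ω).V)
    (fun ω => (D ω).query (2 * u * ((i : ℕ) + k * j) + (u - 1))) (fun ω v => h1 ω _ v)
    (fun ω x y hxy v => by
      by_contra hcon
      exact (h4 x y).1 ((h3 x y).2 hxy) ω ⟨v, hcon⟩)
    (fun x y hxy => by
      have h5 := (h4 x y).2 (by
        rw [h3, not_nonempty_iff_eq_empty]
        exact disjoint_iff_inter_eq_empty.1 hxy)
      rw [Nat.card_eq_fintype_card, Nat.card_eq_fintype_card, Fintype.card_subtype] at h5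
      refine h5.trans (Nat.mul_le_mul_left _ (card_le_card fun ω hω => ?_))
      rw [mem_filter] at hω ⊢
      exact hω)
  refine key.trans (Nat.mul_le_mul_left _ (card_le_card fun ω hω => ?_))
  rw [mem_filter] at hω ⊢
  exact hω

theorem sums_bound (K : Type) [Field K] (n T M r μ L : ℕ) (hr : 1 ≤ r)
    (hL : L = T * Nat.clog 2 ((M + 1) * r) + μ + 2) (hn : L ≤ n) :
    ∃ k u : ℕ, k * u ≤ n ∧ ∀ (Ω : Type) [Fintype Ω] (D : Ω → SumDS K M), SolvesSums D n T μ →
      ∀ X Y : Fin k → Finset (Fin u),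
        n ^ 2 * Nat.card Ω ≤ 8 * 2 ^ μ * L ^ 2 *
          Nat.card {q : Ω × (Fin k × Fin k) × Fin M //
            (D q.1).Entangles r X Y q.2.1.1 q.2.1.2 q.2.2} := by
  classical
  obtain ⟨k, hk⟩ : ∃ k, k = n / L := ⟨_, rfl⟩
  have hkL : k * L ≤ n := by
    rw [hk]
    exact Nat.div_mul_le_self n L
  refine ⟨k, L, hkL, fun Ω _ D hD X Y => ?_⟩
  have hk1 : 1 ≤ k := by
    rw [hk]
    exact Nat.div_pos hn (by omega)
  have hpairs : k * k * Fintype.card Ω ≤ 2 ^ (μ + 1) *
      (univ.filter (fun q : Ω × (Fin k × Fin k) × Fin M =>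
        (D q.1).Entangles r X Y q.2.1.1 q.2.1.2 q.2.2)).card := by
    have e1 : ∑ q : Fin k × Fin k,
        (univ.filter (fun ω => ∃ l, (D ω).Entangles r X Y q.1 q.2 l)).card ≤
        (univ.filter (fun q : Ω × (Fin k × Fin k) × Fin M =>
          (D q.1).Entangles r X Y q.2.1.1 q.2.1.2 q.2.2)).card := by
      rw [← card_sigma]
      have hch : ∀ z : (q : Fin k × Fin k) × Ω, ∃ l : Option (Fin M),
          (∃ l', (D z.2).Entangles r X Y z.1.1 z.1.2 l') →
            ∃ l', l = some l' ∧ (D z.2).Entangles r X Y z.1.1 z.1.2 l' := by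
        intro z
        by_cases hz : ∃ l', (D z.2).Entangles r X Y z.1.1 z.1.2 l'
        · obtain ⟨l', hl'⟩ := hz
          exact ⟨some l', fun _ => ⟨l', rfl, hl'⟩⟩
        · exact ⟨none, fun h => absurd h hz⟩
      choose c hc using hch
      rw [← card_image_of_injective (univ.filter (fun q : Ω × (Fin k × Fin k) × Fin M =>
          (D q.1).Entangles r X Y q.2.1.1 q.2.1.2 q.2.2))
        (f := fun q => (q.1, q.2.1, some q.2.2)) (fun q q' h => by
          have a1 : q.1 = q'.1 := (Prod.mk.inj h).1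
          have a2 := (Prod.mk.inj h).2
          have a3 : q.2.1 = q'.2.1 := (Prod.mk.inj a2).1
          exact Prod.ext a1 (Prod.ext a3 (Option.some.inj (Prod.mk.inj a2).2)))]
      refine card_le_card_of_injOn (fun z => (z.2, z.1, c z)) (fun z hz => ?_)
        (fun z _ z' _ h => ?_)
      · rw [mem_coe, mem_sigma, mem_filter] at hz
        obtain ⟨l', h1, h2⟩ := hc z hz.2.2
        rw [mem_coe, mem_image]
        refine ⟨(z.2, z.1, l'), mem_filter.2 ⟨mem_univ _, h2⟩, ?_⟩
        show (z.2, z.1, some l') = (z.2, z.1, c z)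
        rw [h1]
      · have a1 : z.2 = z'.2 := congrArg Prod.fst h
        have a2 : (z.1, c z) = (z'.1, c z') := congrArg Prod.snd h
        have a3 : z.1 = z'.1 := congrArg Prod.fst a2
        exact Sigma.ext a3 (heq_of_eq a1)
    calc k * k * Fintype.card Ω = ∑ _q : Fin k × Fin k, Fintype.card Ω := by
          rw [sum_const, card_univ, Fintype.card_prod, Fintype.card_fin, smul_eq_mul]
      _ ≤ ∑ q : Fin k × Fin k, 2 ^ (μ + 1) *
          (univ.filter (fun ω => ∃ l, (D ω).Entangles r X Y q.1 q.2 l)).card :=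
          sum_le_sum fun q _ => sums_pair hr (by omega) hkL
            (by rw [hL]; exact le_pow_clog' T M r μ) hD X Y q.1 q.2
      _ ≤ _ := by
          rw [← mul_sum]
          exact Nat.mul_le_mul_left _ e1
  have hn2 : n ^ 2 ≤ 4 * L ^ 2 * (k * k) := by
    have e1 : n < L * (k + 1) := by
      rw [hk]
      exact Nat.lt_mul_div_succ n (by omega)
    have e2 : n ≤ 2 * (k * L) := by nlinarith
    calc n ^ 2 ≤ (2 * (k * L)) ^ 2 := Nat.pow_le_pow_left e2 2
      _ = _ := by ring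
  rw [Nat.card_eq_fintype_card, Nat.card_eq_fintype_card, Fintype.card_subtype]
  calc n ^ 2 * Fintype.card Ω ≤ 4 * L ^ 2 * (k * k) * Fintype.card Ω :=
        Nat.mul_le_mul_right _ hn2
    _ = 4 * L ^ 2 * (k * k * Fintype.card Ω) := by ring
    _ ≤ 4 * L ^ 2 * _ := Nat.mul_le_mul_left _ hpairs
    _ = _ := by ring

end Pool.Agent.Q202.RC
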