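import Mathlib.Algebra.MvPolynomial.Basic
import Mathlib.Algebra.MvPolynomial.Degrees
import Mathlib.LinearAlgebra.Dimension.Constructions
import Mathlib.LinearAlgebra.Dimension.StrongRankCondition
import Mathlib.LinearAlgebra.FiniteDimensional.Lemmas
import Mathlib.LinearAlgebra.Dimension.Finite
import Mathlib.Order.Preorder.Finite

/-!
# Polynomials in bits of small rank cannot certify that two sets are disjoint
-/

set_option autoImplicit false

open Finset

namespace Pool.Agent.Q202.RC

variable {K : Type} [Field K]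

/-- The Boolean function `f` of two arguments has rank at most `r` over `K`. -/
def RankLe (K : Type) [Field K] {X Y : Type} (r : ℕ) (f : X → Y → Bool) : Prop :=
  ∃ (g : Fin r → X → K) (h : Fin r → Y → K),
    ∀ x y, (if f x y = true then (1 : K) else 0) = ∑ a, g a x * h a y

theorem exists_list {M : ℕ} (α : Fin M →₀ ℕ) :
    ∃ L : List (Fin M), L.length = α.sum (fun _ n => n) ∧
      ∀ β : Fin M → K, (L.map β).prod = α.prod (fun l n => β l ^ n) := by
  induction α using Finsupp.induction_linear with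
  | zero => exact ⟨[], rfl, fun β => by simp⟩
  | add f g hf hg =>
    obtain ⟨L, h1, h2⟩ := hf
    obtain ⟨L', h1', h2'⟩ := hg
    refine ⟨L ++ L', ?_, fun β => ?_⟩
    · rw [List.length_append, h1, h1', Finsupp.sum_add_index' (fun _ => rfl) (fun _ _ _ => rfl)]
    · rw [List.map_append, List.prod_append, h2, h2',
        Finsupp.prod_add_index' (fun l => pow_zero _) (fun l n n' => pow_add _ _ _)]
  | single a n =>
    refine ⟨List.replicate n a, ?_, fun β => ?_⟩
    · rw [List.length_replicate, Finsupp.sum_single_index rfl]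
    · rw [List.map_replicate, List.prod_replicate,
        Finsupp.prod_single_index (h := fun l n => β l ^ n) (pow_zero _)]

/-- The factor of a step. -/
def fac {M : ℕ} (β : Fin M → K) : Option (Fin M) → K
  | none => 1
  | some l => β l

theorem prod_fac {M : ℕ} (β : Fin M → K) (L : List (Fin M)) :
    ∀ T : ℕ, L.length ≤ T → ∏ t : Fin T, fac β (L[(t : ℕ)]?) = (L.map β).prod := by
  induction L with
  | nil =>
    intro T _
    simp [fac]
  | cons a L ih =>
    intro T hT
    rw [List.length_cons] at hT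
    obtain ⟨T', rfl⟩ : ∃ T', T = T' + 1 := ⟨T - 1, by omega⟩
    rw [Fin.prod_univ_succ, List.map_cons, List.prod_cons, ← ih T' (by omega)]
    simp [fac]

/-- The functions of the second argument from which all polynomials of degree at most `T` in bits
of rank at most `r` are combined. -/
theorem joint {M r T : ℕ} (hr : 1 ≤ r) {X Y V : Type} (f : X → Y → Fin M → Bool)
    (hf : ∀ l, RankLe K r (fun x y => f x y l)) (p : V → MvPolynomial (Fin M) K)
    (hp : ∀ v, (p v).totalDegree ≤ T) :
    ∃ G : (Fin T → Option (Fin M)) × (Fin T → Fin r) → Y → K, ∀ x v,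
      (fun y => MvPolynomial.eval (fun l => if f x y l = true then (1 : K) else 0) (p v)) ∈
        Submodule.span K (Set.range G) := by
  classical
  choose g h hgh using hf
  obtain ⟨F, hF⟩ : ∃ F : Option (Fin M) → Fin r → X → K, F = fun o a x =>
    match o with
    | none => if a = ⟨0, hr⟩ then 1 else 0
    | some l => g l a x := ⟨_, rfl⟩
  obtain ⟨H, hH⟩ : ∃ H : Option (Fin M) → Fin r → Y → K, H = fun o a y =>
    match o with
    | none => 1
    | some l => h l a y := ⟨_, rfl⟩
  have hb : ∀ (o : Option (Fin M)) x y,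
      fac (fun l => if f x y l = true then (1 : K) else 0) o = ∑ a, F o a x * H o a y := by
    intro o x y
    cases o with
    | none =>
      rw [hF, hH]
      simp [fac]
    | some l =>
      rw [hF, hH]
      exact hgh l x y
  refine ⟨fun q y => ∏ t, H (q.1 t) (q.2 t) y, fun x v => ?_⟩
  have h1 : (fun y => MvPolynomial.eval (fun l => if f x y l = true then (1 : K) else 0) (p v)) =
      ∑ α ∈ (p v).support, (p v).coeff α •
        (fun y => α.prod (fun l n => (if f x y l = true then (1 : K) else 0) ^ n)) := by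
    funext y
    rw [MvPolynomial.eval_eq, Finset.sum_apply]
    rfl
  rw [h1]
  refine Submodule.sum_mem _ fun α hα => Submodule.smul_mem _ _ ?_
  obtain ⟨L, hL1, hL2⟩ := exists_list (K := K) α
  have hLT : L.length ≤ T := by
    rw [hL1]
    exact (MvPolynomial.le_totalDegree hα).trans (hp v)
  have h2 : (fun y => α.prod (fun l n => (if f x y l = true then (1 : K) else 0) ^ n)) =
      ∑ τ : Fin T → Fin r, (∏ t : Fin T, F (L[(t : ℕ)]?) (τ t) x) •
        (fun y => ∏ t : Fin T, H (L[(t : ℕ)]?) (τ t) y) := by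
    funext y
    rw [← hL2, ← prod_fac _ L T hLT, Finset.sum_apply]
    have e1 : ∏ t : Fin T, fac (fun l => if f x y l = true then (1 : K) else 0) (L[(t : ℕ)]?) =
        ∏ t : Fin T, ∑ a, F (L[(t : ℕ)]?) a x * H (L[(t : ℕ)]?) a y :=
      prod_congr rfl fun t _ => hb (L[(t : ℕ)]?) x y
    rw [e1, prod_univ_sum, Fintype.piFinset_univ]
    refine sum_congr rfl fun τ _ => ?_
    rw [prod_mul_distrib]
    rfl
  rw [h2]
  refine Submodule.sum_mem _ fun τ _ => Submodule.smul_mem _ _ ?_
  exact Submodule.subset_span ⟨(fun t => L[(t : ℕ)]?, τ), rfl⟩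

/-- Triangular families in a span are small. -/
theorem few_accepted {u : ℕ} {V ι : Type} [Fintype ι]
    (A : Finset (Fin u) → Finset (Fin u) → V → K) (G : ι → Finset (Fin u) → K)
    (hG : ∀ x v, (fun y => A x y v) ∈ Submodule.span K (Set.range G))
    (h0 : ∀ x y, (x ∩ y).Nonempty → ∀ v, A x y v = 0) (Z : Finset (Finset (Fin u)))
    (hZ : ∀ x ∈ Z, ∃ v, A x xᶜ v ≠ 0) : Z.card ≤ Fintype.card ι := by
  classical
  have hv : ∀ x : Z, ∃ v, A x.1 x.1ᶜ v ≠ 0 := fun x => hZ x.1 x.2
  choose v hv using hv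
  obtain ⟨w, hw⟩ : ∃ w : Z → Submodule.span K (Set.range G), w = fun x =>
    ⟨fun y => A x.1 y (v x), hG x.1 (v x)⟩ := ⟨_, rfl⟩
  have hli : LinearIndependent K w := by
    rw [Fintype.linearIndependent_iff]
    intro c hc
    by_contra hcon
    push Not at hcon
    obtain ⟨i₀, hi₀⟩ := hcon
    obtain ⟨x₀, hx₀⟩ := (univ.filter (fun x : Z => c x ≠ 0)).exists_minimal
      ⟨i₀, mem_filter.2 ⟨mem_univ _, hi₀⟩⟩
    have h1 : x₀ ∈ univ.filter (fun x : Z => c x ≠ 0) := hx₀.1
    rw [mem_filter] at h1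
    have h2 : (∑ x, c x • (w x : Finset (Fin u) → K)) = 0 := by
      have := congrArg (Submodule.subtype _) hc
      rw [map_sum, map_zero] at this
      rw [← this]
      exact sum_congr rfl fun x _ => by rw [map_smul]; rfl
    have h3 := congrFun h2 x₀.1ᶜ
    rw [Finset.sum_apply, sum_eq_single x₀] at h3
    · rw [hw] at h3
      have h4 : c x₀ * A x₀.1 x₀.1ᶜ (v x₀) = 0 := h3
      rcases mul_eq_zero.1 h4 with h5 | h5
      · exact h1.2 h5
      · exact hv x₀ h5
    · intro x _ hx
      by_cases hcx : c x = 0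
      · show c x * _ = 0
        rw [hcx, zero_mul]
      · have h4 : ¬ x.1 ⊆ x₀.1 := by
          intro hsub
          have h5 : x₀ ≤ x := hx₀.2 (mem_filter.2 ⟨mem_univ _, hcx⟩) hsub
          exact hx (le_antisymm hsub h5)
        rw [not_subset] at h4
        obtain ⟨e, he, he'⟩ := h4
        have h5 : A x.1 x₀.1ᶜ (v x) = 0 :=
          h0 _ _ ⟨e, mem_inter.2 ⟨he, mem_compl.2 he'⟩⟩ _
        rw [hw]
        show c x * A x.1 x₀.1ᶜ (v x) = 0
        rw [h5, mul_zero]
    · intro h
      exact absurd (mem_univ _) h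
  have h1 := LinearIndependent.fintype_card_le_finrank hli
  rw [Fintype.card_coe] at h1
  exact h1.trans (finrank_range_le_card G)

open Classical in
/-- For a random memory most members have a bit of large rank. -/
theorem core {u M r T μ : ℕ} (hr : 1 ≤ r) (hu : 2 ^ (μ + 1) * ((M + 1) * r) ^ T ≤ 2 ^ u)
    {Ω : Type} [Fintype Ω] (f : Ω → Finset (Fin u) → Finset (Fin u) → Fin M → Bool)
    (V : Ω → Type) (p : ∀ ω, V ω → MvPolynomial (Fin M) K)
    (hp : ∀ ω v, (p ω v).totalDegree ≤ T)
    (h0 : ∀ ω x y, (x ∩ y).Nonempty → ∀ v,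
      MvPolynomial.eval (fun l => if f ω x y l = true then (1 : K) else 0) (p ω v) = 0)
    (h1 : ∀ x y, Disjoint x y → Fintype.card Ω ≤ 2 ^ μ * (univ.filter (fun ω => ∃ v,
      MvPolynomial.eval (fun l => if f ω x y l = true then (1 : K) else 0) (p ω v) ≠ 0)).card) :
    Fintype.card Ω ≤ 2 ^ (μ + 1) *
      (univ.filter (fun ω => ∃ l, ¬ RankLe K r (fun x y => f ω x y l))).card := by
  obtain ⟨E, hE⟩ : ∃ E, E = univ.filter (fun ω => ∃ l, ¬ RankLe K r (fun x y => f ω x y l)) :=
    ⟨_, rfl⟩
  obtain ⟨Z, hZ⟩ : ∃ Z : Ω → Finset (Finset (Fin u)), Z = fun ω => univ.filter (fun x => ∃ v,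
    MvPolynomial.eval (fun l => if f ω x xᶜ l = true then (1 : K) else 0) (p ω v) ≠ 0) := ⟨_, rfl⟩
  obtain ⟨R, hR⟩ : ∃ R, R = ((M + 1) * r) ^ T := ⟨_, rfl⟩
  obtain ⟨n, hn⟩ : ∃ n, n = Fintype.card Ω := ⟨_, rfl⟩
  rw [← hE]
  have h2 : ∀ ω, ω ∉ E → (Z ω).card ≤ R := by
    intro ω hω
    rw [hE, mem_filter, not_and] at hω
    have h3 := hω (mem_univ _)
    push Not at h3
    obtain ⟨G, hG⟩ := joint hr (f ω) h3 (p ω) (hp ω)
    have h4 := few_accepted (fun x y v =>
      MvPolynomial.eval (fun l => if f ω x y l = true then (1 : K) else 0) (p ω v)) G hG (h0 ω)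
      (Z ω) (fun x hx => by
        rw [hZ, mem_filter] at hx
        exact hx.2)
    refine h4.trans (le_of_eq ?_)
    rw [Fintype.card_prod, Fintype.card_fun, Fintype.card_fun, Fintype.card_fin, Fintype.card_fin,
      Fintype.card_option, Fintype.card_fin, hR, mul_pow]
  have h3 : ∀ ω, (Z ω).card ≤ 2 ^ u := by
    intro ω
    refine (card_le_univ _).trans (le_of_eq ?_)
    rw [Fintype.card_finset, Fintype.card_fin]
  have h4 : 2 ^ u * n ≤ 2 ^ μ * ∑ ω, (Z ω).card := by
    have h5 : ∑ ω, (Z ω).card = ∑ x : Finset (Fin u), (univ.filter (fun ω => ∃ v,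
        MvPolynomial.eval (fun l => if f ω x xᶜ l = true then (1 : K) else 0) (p ω v) ≠ 0)).card := by
      rw [hZ]
      simp only [card_filter]
      exact sum_comm
    rw [h5, mul_sum]
    calc 2 ^ u * n = ∑ _x : Finset (Fin u), n := by
          rw [sum_const, card_univ, Fintype.card_finset, Fintype.card_fin, smul_eq_mul]
      _ ≤ _ := sum_le_sum fun x _ => by
          rw [hn]
          exact h1 x xᶜ disjoint_compl_right
  have h5 : ∑ ω, (Z ω).card ≤ E.card * 2 ^ u + n * R := by
    calc ∑ ω, (Z ω).card ≤ ∑ ω, ((if ω ∈ E then 2 ^ u else 0) + R) := by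
          refine sum_le_sum fun ω _ => ?_
          by_cases hω : ω ∈ E
          · rw [if_pos hω]
            exact (h3 ω).trans (Nat.le_add_right _ _)
          · rw [if_neg hω, zero_add]
            exact h2 ω hω
      _ = _ := by
          rw [sum_add_distrib, sum_const, card_univ, ← hn, smul_eq_mul, ← sum_filter, sum_const,
            smul_eq_mul, filter_mem_eq_inter, univ_inter]
  rw [← hR] at hu
  rw [← hn]
  have h6 : 2 ^ u * n ≤ 2 ^ μ * (E.card * 2 ^ u + n * R) := h4.trans (Nat.mul_le_mul_left _ h5)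
  have h7 : n * (2 ^ (μ + 1) * R) ≤ n * 2 ^ u := Nat.mul_le_mul_left _ hu
  have h8 : 2 ^ (μ + 1) = 2 * 2 ^ μ := pow_succ' _ _
  rw [h8] at h7 ⊢
  refine Nat.le_of_mul_le_mul_left (c := 2 ^ u) ?_ (by positivity)
  nlinarith

end Pool.Agent.Q202.RC
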